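import Mathlib
import Pool.Agent.Results.MP_a2c283_pr.UndirectedCounterexample

set_option autoImplicit false

open MeasureTheory ProbabilityTheory Finset
open scoped ENNReal

/-!
The number of walkers in the negative answer can be taken linear in `H(G)`, and the loss is linear
in the number of vertices. The graph (a star and a clique joined by an edge), the lower bound for
the cover time and the hitting times are those of the file `UndirectedCounterexample`, whose
definitions (`coverFrom`, `coverMax`, `HH`, ...) are used.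
-/

namespace Pool.Agent.Results.MP_a2c283_pr.LinearInRatio

open Pool.Agent.Results.MP_a2c283_pr.UndirectedCounterexample
open Pool.Agent.Results.MP_a2c283_pr.UndirectedCounterexample.VT

variable {M : ℕ}

/-- `K + 1` walkers at the centre of the star and `K + 1 + j` walkers at the attaching vertex of
the clique -/
def begin2 (M K j : ℕ) : Fin ((K + 1) + (K + 1 + j)) → VT M :=
  Fin.append (fun _ => c) (fun _ => d 0)

theorem cover_upper2 (K j : ℕ) : coverFrom (toDi (GG M)) (begin2 M K j) ≤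
    ((2 * (M + 3) : ℕ) : ℝ≥0∞) + ((2 * M + 5 : ℕ) : ℝ≥0∞) *
      (ENNReal.ofReal (2/3) ^ K * ((7 * (M + 2) ^ 2 : ℕ) : ℝ≥0∞)) := by
  set T := 2 * (M + 3) with hT
  refine (coverFrom_le (toDi (GG M)) (begin2 M K j) T).trans ?_
  gcongr
  rw [Summable.tsum_finsetSum (fun i _ => ENNReal.summable)]
  have hcard : ((2 * M + 5 : ℕ) : ℝ≥0∞) * (ENNReal.ofReal (2/3) ^ K *
      ((7 * (M + 2) ^ 2 : ℕ) : ℝ≥0∞)) =
      ∑ v : VT M, (ENNReal.ofReal (2/3) ^ K * ((7 * (M + 2) ^ 2 : ℕ) : ℝ≥0∞)) := by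
    rw [Finset.sum_const, Finset.card_univ, nsmul_eq_mul]
    congr 2
    rw [Fintype.card_congr (VTe M)]
    simp
    ring
  rw [hcard]
  refine Finset.sum_le_sum fun v _ => ?_
  have hprod : ∀ t, ∏ i, walkLaw (toDi (GG M)) (begin2 M K j i) (avoid v (t + T)) ≤
      SS M v (t + T) c ^ (K + 1) * SS M v (t + T) (d 0) ^ (K + 1) := by
    intro t
    rw [Fin.prod_univ_add]
    simp only [begin2, Fin.append_left, Fin.append_right, Finset.prod_const, Finset.card_univ,
      Fintype.card_fin, walkLaw_avoid]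
    refine mul_le_mul' le_rfl ?_
    exact pow_le_pow_right_of_le_one' (SS_le_one v (t + T) (d 0)) (by omega)
  have key : ∀ a b : VT M, SS M v T a ≤ ENNReal.ofReal (2/3) →
      ∑' t, SS M v (t + T) a ^ (K + 1) * SS M v (t + T) b ^ (K + 1) ≤
        ENNReal.ofReal (2/3) ^ K * ((7 * (M + 2) ^ 2 : ℕ) : ℝ≥0∞) := by
    intro a b hab
    calc ∑' t, SS M v (t + T) a ^ (K + 1) * SS M v (t + T) b ^ (K + 1)
        ≤ ∑' t, ENNReal.ofReal (2/3) ^ K * SS M v (t + T) a := by
          refine ENNReal.tsum_le_tsum fun t => ?_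
          calc SS M v (t + T) a ^ (K + 1) * SS M v (t + T) b ^ (K + 1)
              ≤ (ENNReal.ofReal (2/3) ^ K * SS M v (t + T) a) * 1 := by
                rw [pow_succ]
                gcongr
                · exact (SS_anti v a (by omega)).trans hab
                · exact pow_le_one₀ zero_le (SS_le_one _ _ _)
            _ = _ := mul_one _
      _ = ENNReal.ofReal (2/3) ^ K * ∑' t, SS M v (t + T) a := ENNReal.tsum_mul_left
      _ ≤ ENNReal.ofReal (2/3) ^ K * ∑' t, SS M v t a := by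
          refine mul_le_mul' le_rfl ?_
          exact ENNReal.tsum_comp_le_tsum_of_injective (f := fun t : ℕ => t + T)
            (fun x y h => by simpa using h) (fun t => SS M v t a)
      _ ≤ _ := by
          gcongr
          rw [← hit_SS]
          exact hit_bound a v
  refine (ENNReal.tsum_le_tsum hprod).trans ?_
  rcases good_start v with h | h
  · exact key c (d 0) h
  · have := key (d 0) c h
    simp_rw [mul_comm (SS M v _ (d 0) ^ (K + 1))] at this
    exact this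

theorem cover_upper2' (r j : ℕ) (hM : M + 2 = 2 ^ r) :
    coverFrom (toDi (GG M)) (begin2 M (6 * r) j) ≤ ENNReal.ofReal (25 * 2 ^ r) := by
  refine (cover_upper2 (M := M) (6 * r) j).trans ?_
  rw [← ENNReal.ofReal_pow (by norm_num), ← ENNReal.ofReal_natCast, ← ENNReal.ofReal_natCast,
    ← ENNReal.ofReal_natCast, ← ENNReal.ofReal_mul (by positivity),
    ← ENNReal.ofReal_mul (by positivity), ← ENNReal.ofReal_add (by positivity) (by positivity)]
  apply ENNReal.ofReal_le_ofReal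
  have hN : ((M : ℝ) + 2) = 2 ^ r := by exact_mod_cast hM
  set N : ℝ := 2 ^ r with hNdef
  have hN1 : 1 ≤ N := one_le_pow₀ (by norm_num)
  have hpow : (2/3 : ℝ) ^ (6 * r) ≤ 1 / N ^ 3 := by
    have h1 : (2/3 : ℝ) ^ (6 * r) = ((2/3) ^ 6) ^ r := by rw [pow_mul]
    have h2 : 1 / N ^ 3 = (1 / 8 : ℝ) ^ r := by
      rw [hNdef, ← pow_mul, mul_comm r 3, pow_mul, one_div_pow]; norm_num
    rw [h1, h2]
    exact pow_le_pow_left₀ (by norm_num) (by norm_num) r
  have hMr : (M : ℝ) = N - 2 := by linarith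
  push_cast
  rw [hMr]
  have h3 : (2 * (N - 2) + 5) * ((2/3 : ℝ) ^ (6 * r) * (7 * (N - 2 + 2) ^ 2)) ≤
      (2 * (N - 2) + 5) * (1 / N ^ 3 * (7 * (N - 2 + 2) ^ 2)) := by
    have : 0 ≤ 2 * (N - 2) + 5 := by linarith
    gcongr
  have h4 : (2 * (N - 2) + 5) * (1 / N ^ 3 * (7 * (N - 2 + 2) ^ 2)) = 14 + 7 / N := by
    field_simp
    ring
  have h5 : 7 / N ≤ 7 := by
    rw [div_le_iff₀ (by linarith)]; linarith
  rw [h4] at h3
  linarith

theorem HH_ge (r : ℕ) (hr : 1 ≤ r) (hM : M + 2 = 2 ^ r) : (r : ℝ) / 14 ≤ HH (toDi (GG M)) := by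
  have hge := coverMax_ge r hM
  have hle := coverMax_le (M := M)
  have hh := hitMax_le (M := M)
  have hhtop : hitMax (toDi (GG M)) ≠ ∞ := ne_top_of_le_ne_top (ENNReal.natCast_ne_top _) hh
  have hctop : coverMax (toDi (GG M)) ≠ ∞ :=
    ne_top_of_le_ne_top (ENNReal.mul_ne_top (ENNReal.natCast_ne_top _) hhtop) hle
  have hcpos : coverMax (toDi (GG M)) ≠ 0 := by
    intro h0
    rw [h0] at hge
    have : (((M + 2) ^ 2 : ℕ) : ℝ≥0∞) * ((r : ℝ≥0∞) / 2) ≠ 0 := by
      apply mul_ne_zero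
      · simp
      · have : (r : ℝ≥0∞) ≠ 0 := by
          simp; omega
        simp [this]
    exact this (le_antisymm hge zero_le)
  have hhpos : hitMax (toDi (GG M)) ≠ 0 := by
    intro h0
    rw [h0, mul_zero] at hle
    exact hcpos (le_antisymm hle zero_le)
  have h1 : ENNReal.ofReal ((r : ℝ) / 14) ≤ coverMax (toDi (GG M)) / hitMax (toDi (GG M)) := by
    rw [ENNReal.le_div_iff_mul_le (Or.inl hhpos) (Or.inl hhtop)]
    refine le_trans ?_ hge
    calc ENNReal.ofReal ((r : ℝ) / 14) * hitMax (toDi (GG M))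
        ≤ ENNReal.ofReal ((r : ℝ) / 14) * ((7 * (M + 2) ^ 2 : ℕ) : ℝ≥0∞) := by gcongr
      _ = ENNReal.ofReal ((((M + 2) ^ 2 : ℕ) : ℝ) * ((r : ℝ) / 2)) := by
          rw [← ENNReal.ofReal_natCast, ← ENNReal.ofReal_mul (by positivity)]
          congr 1; push_cast; ring
      _ = (((M + 2) ^ 2 : ℕ) : ℝ≥0∞) * ((r : ℝ≥0∞) / 2) := by
          rw [ENNReal.ofReal_mul (by positivity), ENNReal.ofReal_div_of_pos (by norm_num),
            ENNReal.ofReal_natCast, ENNReal.ofReal_natCast]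
          norm_num
  have h2 := ENNReal.toReal_mono (ENNReal.div_ne_top hctop hhpos) h1
  rw [ENNReal.toReal_ofReal (by positivity)] at h2
  exact h2

theorem cover_ge (r : ℕ) (hM : M + 2 = 2 ^ r) :
    ENNReal.ofReal (4 ^ r * r / 2) ≤ coverMax (toDi (GG M)) := by
  refine le_trans (le_of_eq ?_) (coverMax_ge r hM)
  have hN : ((M : ℝ) + 2) = 2 ^ r := by exact_mod_cast hM
  have h1 : (((M + 2) ^ 2 : ℕ) : ℝ≥0∞) * ((r : ℝ≥0∞) / 2) =
      ENNReal.ofReal ((((M + 2) ^ 2 : ℕ) : ℝ) * ((r : ℝ) / 2)) := by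
    rw [ENNReal.ofReal_mul (by positivity), ENNReal.ofReal_div_of_pos (by norm_num),
      ENNReal.ofReal_natCast, ENNReal.ofReal_natCast]
    norm_num
  rw [h1]
  push_cast
  rw [hN]
  congr 1
  rw [← pow_mul, mul_comm r 2, pow_mul]
  norm_num
  ring

/-- The graphs: for every `r ≥ 1` a connected graph on `2 ^ (r + 1) + 1` vertices. -/
theorem graphs (r : ℕ) (hr : 1 ≤ r) : ∃ (V : Type) (_ : Fintype V) (_ : MeasurableSpace V)
    (_ : DiscreteMeasurableSpace V) (G : SimpleGraph V), G.Connected ∧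
      Fintype.card V = 2 ^ (r + 1) + 1 ∧ (r : ℝ) / 14 ≤ HH (toDi G) ∧
      ENNReal.ofReal (4 ^ r * r / 2) ≤ coverMax (toDi G) ∧
      ∀ k : ℕ, 12 * r + 2 ≤ k → ∃ u : Fin k → V,
        coverFrom (toDi G) u ≤ ENNReal.ofReal (25 * 2 ^ r) := by
  have h2r : 2 ≤ 2 ^ r := by
    calc 2 = 2 ^ 1 := by norm_num
      _ ≤ 2 ^ r := Nat.pow_le_pow_right (by norm_num) hr
  obtain ⟨M, hM⟩ : ∃ M, M + 2 = 2 ^ r := ⟨2 ^ r - 2, by omega⟩
  refine ⟨VT M, inferInstance, inferInstance, inferInstance, GG M, GG_connected M, ?_,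
    HH_ge r hr hM, cover_ge r hM, fun k hk => ?_⟩
  · rw [Fintype.card_congr (VTe M)]
    simp only [Fintype.card_sum, Fintype.card_unit, Fintype.card_fin]
    rw [pow_succ, ← hM]; ring
  · obtain ⟨j, rfl⟩ : ∃ j, k = (6 * r + 1) + (6 * r + 1 + j) := ⟨k - (12 * r + 2), by omega⟩
    exact ⟨begin2 M (6 * r) j, cover_upper2' r j hM⟩

/-- **The speedup of `k` walks fails to be linear as soon as `k` exceeds a constant times `H(G)`.**
(1) For every `r ≥ 1` there is a connected graph `G` with `n = 2 ^ (r + 1) + 1` vertices and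
`H(G) ≥ r / 14` such that for every `k ≥ 12 r + 2` some `k` starting vertices have
`(2 ^ r r / 50) C_{u_1,…,u_k} ≤ C`. (2) For every `c > 0` there are a connected graph `G`, a number
`k ≤ 196 H(G)` and starting vertices with `c k C_{u_1,…,u_k} < C`. (3) The negated form of the
question: for all `α, c > 0` there are such `G`, `k`, `u_1,…,u_k` with `k ≤ e^{α H(G)}`. -/
theorem result :
    (∀ r : ℕ, 1 ≤ r → ∃ (V : Type) (_ : Fintype V) (_ : MeasurableSpace V)
      (_ : DiscreteMeasurableSpace V) (G : SimpleGraph V), G.Connected ∧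
        Fintype.card V = 2 ^ (r + 1) + 1 ∧ (r : ℝ) / 14 ≤ HH (toDi G) ∧
        ∀ k : ℕ, 12 * r + 2 ≤ k → ∃ u : Fin k → V,
          ENNReal.ofReal (2 ^ r * r / 50) * coverFrom (toDi G) u ≤ coverMax (toDi G)) ∧
    (∀ c : ℝ, 0 < c → ∃ (V : Type) (_ : Fintype V) (_ : MeasurableSpace V)
      (_ : DiscreteMeasurableSpace V) (G : SimpleGraph V), G.Connected ∧
        ∃ (k : ℕ) (u : Fin k → V), 1 ≤ k ∧ (k : ℝ) ≤ 196 * HH (toDi G) ∧
          ENNReal.ofReal (c * k) * coverFrom (toDi G) u < coverMax (toDi G)) ∧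
    (∀ α c : ℝ, 0 < α → 0 < c → ∃ (V : Type) (_ : Fintype V) (_ : MeasurableSpace V)
      (_ : DiscreteMeasurableSpace V) (G : SimpleGraph V), G.Connected ∧
        ∃ (k : ℕ) (u : Fin k → V), 1 ≤ k ∧ (k : ℝ) ≤ Real.exp (α * HH (toDi G)) ∧
          ENNReal.ofReal (c * k) * coverFrom (toDi G) u < coverMax (toDi G)) := by
  -- the common part of (2) and (3)
  have key : ∀ (c : ℝ) (r : ℕ), 0 < c → 1 ≤ r → 700 * c ≤ r →
      ∃ (V : Type) (_ : Fintype V) (_ : MeasurableSpace V)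
      (_ : DiscreteMeasurableSpace V) (G : SimpleGraph V), G.Connected ∧
        (r : ℝ) / 14 ≤ HH (toDi G) ∧
        ∃ u : Fin (12 * r + 2) → V,
          ENNReal.ofReal (c * ((12 * r + 2 : ℕ) : ℝ)) * coverFrom (toDi G) u <
            coverMax (toDi G) := by
    intro c r hc hr hrc
    obtain ⟨V, i1, i2, i3, G, hG, -, hH, hge, hk⟩ := graphs r hr
    obtain ⟨u, hu⟩ := hk (12 * r + 2) le_rfl
    refine ⟨V, i1, i2, i3, G, hG, hH, u, ?_⟩
    refine lt_of_le_of_lt (mul_le_mul' le_rfl hu) (lt_of_lt_of_le ?_ hge)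
    rw [← ENNReal.ofReal_mul (by positivity)]
    have hr0 : (1 : ℝ) ≤ r := by exact_mod_cast hr
    apply (ENNReal.ofReal_lt_ofReal_iff (by positivity)).2
    have hp : (0 : ℝ) < 2 ^ r := by positivity
    have h2 : (r : ℝ) < 2 ^ r := by exact_mod_cast Nat.lt_two_pow_self
    have h4 : 700 * c < 2 ^ r := lt_of_le_of_lt hrc h2
    have e4 : (4 : ℝ) ^ r = 2 ^ r * 2 ^ r := by
      rw [← mul_pow]; norm_num
    push_cast
    rw [e4]
    have h3 : c * (12 * (r : ℝ) + 2) * (25 * 2 ^ r) ≤ c * (14 * r) * (25 * 2 ^ r) := by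
      have : 12 * (r : ℝ) + 2 ≤ 14 * r := by linarith
      gcongr
    refine lt_of_le_of_lt h3 ?_
    have h5 : c * (14 * (r:ℝ)) * (25 * 2 ^ r) = (700 * c) * (r * 2 ^ r / 2) := by ring
    have h6 : (2 : ℝ) ^ r * 2 ^ r * (r:ℝ) / 2 = 2 ^ r * (r * 2 ^ r / 2) := by ring
    rw [h5, h6]
    have h7 : (0:ℝ) < r * 2 ^ r / 2 := by positivity
    exact mul_lt_mul_of_pos_right h4 h7
  refine ⟨fun r hr => ?_, fun c hc => ?_, fun α c hα hc => ?_⟩
  · obtain ⟨V, i1, i2, i3, G, hG, hV, hH, hge, hk⟩ := graphs r hr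
    refine ⟨V, i1, i2, i3, G, hG, hV, hH, fun k hk' => ?_⟩
    obtain ⟨u, hu⟩ := hk k hk'
    refine ⟨u, (mul_le_mul' le_rfl hu).trans (le_trans (le_of_eq ?_) hge)⟩
    rw [← ENNReal.ofReal_mul (by positivity)]
    congr 1
    have e4 : (4 : ℝ) ^ r = 2 ^ r * 2 ^ r := by
      rw [← mul_pow]; norm_num
    rw [e4]; ring
  · obtain ⟨r, hr⟩ := exists_nat_ge (max 1 (700 * c))
    have hr1 : (1 : ℝ) ≤ r := (le_max_left _ _).trans hr
    have hrn : 1 ≤ r := by exact_mod_cast hr1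
    obtain ⟨V, i1, i2, i3, G, hG, hH, u, hu⟩ := key c r hc hrn ((le_max_right _ _).trans hr)
    refine ⟨V, i1, i2, i3, G, hG, 12 * r + 2, u, by omega, ?_, hu⟩
    push_cast
    linarith
  · obtain ⟨r, hr⟩ := exists_nat_ge (max 1 (max (5488 / α ^ 2) (700 * c)))
    have hr1 : (1 : ℝ) ≤ r := (le_max_left _ _).trans hr
    have hr2 : 5488 / α ^ 2 ≤ r := ((le_max_left _ _).trans (le_max_right _ _)).trans hr
    have hr3 : 700 * c ≤ r := ((le_max_right _ _).trans (le_max_right _ _)).trans hr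
    have hrn : 1 ≤ r := by exact_mod_cast hr1
    obtain ⟨V, i1, i2, i3, G, hG, hH, u, hu⟩ := key c r hc hrn hr3
    refine ⟨V, i1, i2, i3, G, hG, 12 * r + 2, u, by omega, ?_, hu⟩
    have h3 : α * ((r : ℝ) / 14) ≤ α * HH (toDi G) := by gcongr
    refine le_trans ?_ (Real.exp_le_exp.2 h3)
    have h4 := Real.quadratic_le_exp_of_nonneg (x := α * ((r : ℝ) / 14)) (by positivity)
    refine le_trans ?_ h4
    have h5 : 5488 ≤ r * α ^ 2 := by rwa [div_le_iff₀ (by positivity)] at hr2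
    have h6 : (14 : ℝ) * r ≤ (α * ((r : ℝ) / 14)) ^ 2 / 2 := by
      have : (α * ((r : ℝ) / 14)) ^ 2 / 2 = (r * α ^ 2) * r / 392 := by ring
      rw [this]
      nlinarith
    have h7 : 0 ≤ α * ((r : ℝ) / 14) := by positivity
    push_cast
    linarith

end Pool.Agent.Results.MP_a2c283_pr.LinearInRatio
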